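import Pool.Agent.J6H63.Cop.Stm

/-!
# MODULE STAB: stability in `h` of the product criterion
-/

set_option autoImplicit false

open MeasureTheory ProbabilityTheory Filter Topology
open Cop764

namespace Pool.Agent.J6H58.Cop

open Pool.Agent.J6H63.Cop

/-- Taylor bound of the exponential function with three terms. -/
theorem exp_le3 (y : ℝ) : Real.exp y ≤ 1 + y + y ^ 2 / 2 + |y| ^ 3 * Real.exp |y| := by
  have h := Complex.norm_exp_sub_sum_le_norm_mul_exp (y : ℂ) 3
  have e1 : Complex.exp (y : ℂ) - ∑ m ∈ Finset.range 3, (y : ℂ) ^ m / (m.factorial : ℂ) =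
      ((Real.exp y - (1 + y + y ^ 2 / 2) : ℝ) : ℂ) := by
    simp [Finset.sum_range_succ]
    try ring
  rw [e1, Complex.norm_real, Complex.norm_real, Real.norm_eq_abs, Real.norm_eq_abs] at h
  have := (abs_le.1 h).2
  linarith

theorem cube_le (x : ℝ) : |x| ^ 3 ≤ 6 * Real.exp |x| := by
  have h := Real.pow_div_factorial_le_exp |x| (abs_nonneg x) 3
  have e : ((3).factorial : ℝ) = 6 := by norm_num [Nat.factorial]
  rw [e] at h
  linarith

theorem exp_abs_le (x : ℝ) : Real.exp |x| ≤ Real.exp x + Real.exp (-x) := by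
  rcases le_total 0 x with h | h
  · rw [abs_of_nonneg h]; linarith [Real.exp_pos (-x)]
  · rw [abs_of_nonpos h]; linarith [Real.exp_pos x]

/-- The moment generating function near `0`. -/
theorem mgf_le (B : Base) (ε : ℝ) (hε : 0 < ε) : ∃ t0 : ℝ, 0 < t0 ∧ ∀ t : ℝ, |t| ≤ t0 →
    ∫ x, Real.exp (t * x) ∂B.ν ≤ Real.exp ((1 / 2 + ε) * t ^ 2) := by
  have hex : Integrable (fun x : ℝ => |x| ^ 3 * Real.exp |x|) B.ν := by
    have h1 : Integrable (fun x : ℝ => 6 * (Real.exp (2 * x) + Real.exp (-2 * x))) B.ν :=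
      ((B.expm 2).add (B.expm (-2))).const_mul 6
    refine h1.mono' (by fun_prop) (Filter.Eventually.of_forall fun x => ?_)
    rw [Real.norm_eq_abs, abs_of_nonneg (by positivity)]
    have h2 := cube_le x
    have h3 := exp_abs_le (2 * x)
    have h4 : Real.exp |2 * x| = Real.exp |x| * Real.exp |x| := by
      rw [← Real.exp_add, abs_mul]; norm_num; ring
    rw [h4, show -(2 * x) = -2 * x by ring] at h3
    have h5 := Real.exp_pos |x|
    calc |x| ^ 3 * Real.exp |x| ≤ (6 * Real.exp |x|) * Real.exp |x| :=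
          mul_le_mul_of_nonneg_right h2 h5.le
      _ ≤ 6 * (Real.exp (2 * x) + Real.exp (-2 * x)) := by nlinarith
  have hx1 : Integrable (fun x : ℝ => x) B.ν := by
    have h1 : Integrable (fun x : ℝ => Real.exp (1 * x) + Real.exp (-1 * x)) B.ν :=
      (B.expm 1).add (B.expm (-1))
    refine h1.mono' (by fun_prop) (Filter.Eventually.of_forall fun x => ?_)
    rw [Real.norm_eq_abs]
    have e1 := Real.add_one_le_exp |x|
    have e2 := exp_abs_le x
    rw [one_mul, neg_one_mul]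
    linarith
  have hx2 : Integrable (fun x : ℝ => x ^ 2) B.ν := by
    have h1 : Integrable (fun x : ℝ => 2 * (Real.exp (1 * x) + Real.exp (-1 * x))) B.ν :=
      ((B.expm 1).add (B.expm (-1))).const_mul 2
    refine h1.mono' (by fun_prop) (Filter.Eventually.of_forall fun x => ?_)
    rw [Real.norm_eq_abs, abs_of_nonneg (by positivity)]
    have e1 := Real.pow_div_factorial_le_exp |x| (abs_nonneg x) 2
    have e2 := exp_abs_le x
    have e3 : ((2).factorial : ℝ) = 2 := by norm_num [Nat.factorial]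
    rw [e3, sq_abs] at e1
    rw [one_mul, neg_one_mul]
    linarith
  obtain ⟨C, hC⟩ : ∃ C, C = ∫ x, |x| ^ 3 * Real.exp |x| ∂B.ν := ⟨_, rfl⟩
  have hC0 : 0 ≤ C := by
    rw [hC]
    exact integral_nonneg fun x => by positivity
  refine ⟨min 1 (ε / (C + 1)), by positivity, fun t ht => ?_⟩
  have ht1 : |t| ≤ 1 := ht.trans (min_le_left _ _)
  have ht2 : |t| ≤ ε / (C + 1) := ht.trans (min_le_right _ _)
  have hint : Integrable (fun x : ℝ => 1 + t * x + t ^ 2 / 2 * x ^ 2 +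
      |t| ^ 3 * (|x| ^ 3 * Real.exp |x|)) B.ν :=
    ((((integrable_const (1 : ℝ)).add (hx1.const_mul t)).add (hx2.const_mul (t ^ 2 / 2))).add
      (hex.const_mul (|t| ^ 3)))
  have h1 : ∫ x, Real.exp (t * x) ∂B.ν ≤ ∫ x, (1 + t * x + t ^ 2 / 2 * x ^ 2 +
      |t| ^ 3 * (|x| ^ 3 * Real.exp |x|)) ∂B.ν := by
    refine integral_mono (B.expm t) hint fun x => ?_
    have h2 := exp_le3 (t * x)
    have h3 : |t * x| ≤ |x| := by
      rw [abs_mul]; exact mul_le_of_le_one_left (abs_nonneg x) ht1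
    have h4 := Real.exp_le_exp.2 h3
    have h5 : |t * x| ^ 3 = |t| ^ 3 * |x| ^ 3 := by rw [abs_mul, mul_pow]
    have h6 : |t * x| ^ 3 * Real.exp |t * x| ≤ |t| ^ 3 * (|x| ^ 3 * Real.exp |x|) := by
      rw [h5, mul_assoc]
      exact mul_le_mul_of_nonneg_left (mul_le_mul_of_nonneg_left h4 (by positivity)) (by positivity)
    have h7 : (t * x) ^ 2 / 2 = t ^ 2 / 2 * x ^ 2 := by ring
    show Real.exp (t * x) ≤ 1 + t * x + t ^ 2 / 2 * x ^ 2 + |t| ^ 3 * (|x| ^ 3 * Real.exp |x|)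
    linarith
  have h2 : ∫ x, (1 + t * x + t ^ 2 / 2 * x ^ 2 +
      |t| ^ 3 * (|x| ^ 3 * Real.exp |x|)) ∂B.ν = 1 + t ^ 2 / 2 + |t| ^ 3 * C := by
    have i1 : Integrable (fun x : ℝ => 1 + t * x) B.ν :=
      (integrable_const (1 : ℝ)).add (hx1.const_mul t)
    have i2 : Integrable (fun x : ℝ => 1 + t * x + t ^ 2 / 2 * x ^ 2) B.ν :=
      i1.add (hx2.const_mul (t ^ 2 / 2))
    rw [integral_add i2 (hex.const_mul (|t| ^ 3)),
      integral_add i1 (hx2.const_mul (t ^ 2 / 2)),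
      integral_add (integrable_const (1 : ℝ)) (hx1.const_mul t), integral_const_mul,
      integral_const_mul, integral_const_mul, B.mean, B.var, ← hC]
    simp
  have h3 : |t| ^ 3 * C ≤ ε * t ^ 2 := by
    have h4 : |t| * C ≤ ε := by
      calc |t| * C ≤ ε / (C + 1) * C := mul_le_mul_of_nonneg_right ht2 hC0
        _ ≤ ε := by
          rw [div_mul_eq_mul_div, div_le_iff₀ (by positivity)]
          nlinarith
    calc |t| ^ 3 * C = (|t| * C) * t ^ 2 := by rw [← sq_abs t]; ring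
      _ ≤ ε * t ^ 2 := mul_le_mul_of_nonneg_right h4 (sq_nonneg t)
  have h4 := Real.add_one_le_exp ((1 / 2 + ε) * t ^ 2)
  rw [h2] at h1
  nlinarith

/-- pointwise bound of the weights -/
theorem phi_pow_le (w : ℕ → ℝ) (a b : ℕ) (g : ℝ) (hg : 0 < g) :
    (phi w a b) ^ g ≤ 1 + Real.exp (g * S w a b) := by
  unfold phi
  have e0 := Real.exp_pos (S w a b)
  have e1 : Real.exp (g * S w a b) = (Real.exp (S w a b)) ^ g := by
    rw [← Real.exp_mul, mul_comm]
  rw [e1]
  rcases le_total (Real.exp (S w a b)) 1 with h | h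
  · have h1 : ((1 + Real.exp (S w a b)) / 2) ^ g ≤ 1 :=
      Real.rpow_le_one (by positivity) (by linarith) hg.le
    have h2 : 0 ≤ (Real.exp (S w a b)) ^ g := by positivity
    linarith
  · have h1 : ((1 + Real.exp (S w a b)) / 2) ^ g ≤ (Real.exp (S w a b)) ^ g :=
      Real.rpow_le_rpow (by positivity) (by linarith) hg.le
    linarith

theorem phi_pos (w : ℕ → ℝ) (a b : ℕ) : 0 < phi w a b := by
  unfold phi
  have := Real.exp_pos (S w a b)
  positivity

theorem meas_S (D : Data) (h : ℝ) (a b : ℕ) : Measurable fun ω => S (D.w h ω) a b := by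
  unfold S Data.w
  fun_prop

theorem meas_phi (D : Data) (h : ℝ) (a b : ℕ) : Measurable fun ω => phi (D.w h ω) a b := by
  unfold phi
  have := meas_S D h a b
  fun_prop

theorem S_eq (D : Data) (h : ℝ) (m : ℕ) (ω : ℕ → ℝ) (g : ℝ) :
    g * S (D.w h ω) 0 m = (-2 * D.lam * g) * (∑ i ∈ Finset.Ioc 0 m, fun ω : ℕ → ℝ => ω i) ω +
      (-2 * D.lam * g * h) * m := by
  unfold S Data.w
  simp only [Finset.sum_apply]
  rw [← Finset.mul_sum, Finset.sum_add_distrib]
  simp
  ring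

/-- exponential moments of the sums -/
theorem int_exp (D : Data) (h : ℝ) (m : ℕ) (g : ℝ) :
    Integrable (fun ω => Real.exp (g * S (D.w h ω) 0 m)) D.P ∧
      ∫ ω, Real.exp (g * S (D.w h ω) 0 m) ∂D.P =
        ((∫ x, Real.exp ((-2 * D.lam * g) * x) ∂D.ν) * Real.exp (-2 * D.lam * g * h)) ^ m := by
  have hI : iIndepFun (fun (i : ℕ) (ω : ℕ → ℝ) => ω i) D.P := by
    unfold Data.P disorder
    exact iIndepFun_infinitePi (X := fun _ (x : ℝ) => x) (fun _ => measurable_id)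
  have hmp : ∀ n : ℕ, MeasurePreserving (Function.eval n : (ℕ → ℝ) → ℝ) D.P D.ν := by
    intro n
    unfold Data.P disorder
    exact measurePreserving_eval_infinitePi (fun _ : ℕ => D.ν) n
  have hi : ∀ i : ℕ, Integrable (fun ω : ℕ → ℝ => Real.exp ((-2 * D.lam * g) * ω i)) D.P :=
    fun i => (hmp i).integrable_comp_of_integrable (D.expm _)
  have hmg : ∀ i : ℕ, mgf (fun ω : ℕ → ℝ => ω i) D.P (-2 * D.lam * g) =
      ∫ x, Real.exp ((-2 * D.lam * g) * x) ∂D.ν := by
    intro i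
    unfold mgf
    have h2 : ∫ x, Real.exp ((-2 * D.lam * g) * x) ∂D.ν =
        ∫ x, Real.exp ((-2 * D.lam * g) * x) ∂(Measure.map (Function.eval i) D.P) := by
      rw [(hmp i).map_eq]
    rw [h2, integral_map (measurable_pi_apply i).aemeasurable (by fun_prop)]
  have h1 := hI.integrable_exp_mul_sum (t := -2 * D.lam * g) (fun i => measurable_pi_apply i)
    (s := Finset.Ioc 0 m) (fun i _ => hi i)
  have h2 := hI.mgf_sum (t := -2 * D.lam * g) (fun i => measurable_pi_apply i) (Finset.Ioc 0 m)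
  have e : (fun ω => Real.exp (g * S (D.w h ω) 0 m)) = fun ω : ℕ → ℝ =>
      Real.exp ((-2 * D.lam * g) * (∑ i ∈ Finset.Ioc 0 m, fun ω : ℕ → ℝ => ω i) ω) *
        Real.exp (-2 * D.lam * g * h) ^ m := by
    funext ω
    rw [S_eq, Real.exp_add, ← Real.exp_nat_mul]
    congr 2
    ring
  constructor
  · rw [e]
    exact h1.mul_const _
  · rw [e, integral_mul_const]
    have h3 : ∫ ω, Real.exp ((-2 * D.lam * g) *
        (∑ i ∈ Finset.Ioc 0 m, fun ω : ℕ → ℝ => ω i) ω) ∂D.P =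
        mgf (∑ i ∈ Finset.Ioc 0 m, fun ω : ℕ → ℝ => ω i) D.P (-2 * D.lam * g) := rfl
    rw [h3, h2, Finset.prod_congr rfl fun i _ => hmg i]
    simp [mul_pow]

theorem int_phi (D : Data) (h : ℝ) (m : ℕ) (g : ℝ) (hg : 0 < g) :
    Integrable (fun ω => (phi (D.w h ω) 0 m) ^ g) D.P := by
  refine ((integrable_const (1 : ℝ)).add (int_exp D h m g).1).mono' ?_
    (Filter.Eventually.of_forall fun ω => ?_)
  · exact ((meas_phi D h 0 m).pow_const g).aestronglyMeasurable
  · rw [Real.norm_eq_abs, abs_of_nonneg (Real.rpow_nonneg (phi_pos _ _ _).le _)]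
    exact phi_pow_le _ _ _ _ hg

theorem gam_pos {α : ℝ} (h : 0 < α) : 0 < gam α := by unfold gam; positivity

theorem gam_lt {α : ℝ} (h : 0 < α) : gam α < 1 := by
  unfold gam
  exact inv_lt_one_of_one_lt₀ (by linarith)

/-- MODULE STAB. -/
theorem stab : StabT := by
  intro hK B δ η hδ hη
  have hg0 := gam_pos B.hα
  have hg1 := gam_lt B.hα
  obtain ⟨g, hg⟩ : ∃ g, g = gam B.α := ⟨_, rfl⟩
  rw [← hg] at hg0 hg1
  obtain ⟨C, hC0, hC⟩ := hK B
  obtain ⟨t0, ht0, hmg⟩ := mgf_le B (δ / 2) (by positivity)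
  -- choice of `δ'`
  obtain ⟨δ', hδ', hδ2⟩ : ∃ δ' : ℝ, 0 < δ' ∧ 2 * (C * (2 * δ') ^ B.α) ≤ η := by
    refine ⟨(η / (2 * C)) ^ (B.α)⁻¹ / 2, by positivity, ?_⟩
    have e : 2 * ((η / (2 * C)) ^ (B.α)⁻¹ / 2) = (η / (2 * C)) ^ (B.α)⁻¹ := by ring
    rw [e, ← Real.rpow_mul (by positivity), inv_mul_cancel₀ B.hα.ne', Real.rpow_one]
    field_simp
    exact le_refl _
  refine ⟨δ', min (t0 / 2) (min 1 (1 / (2 * δ'))), hδ', by positivity, ?_⟩
  intro lam hl hlt h hh R
  have hl1 : lam ≤ t0 / 2 := hlt.le.trans (min_le_left _ _)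
  have hl2 : lam ≤ 1 := hlt.le.trans ((min_le_right _ _).trans (min_le_left _ _))
  have hl3 : lam ≤ 1 / (2 * δ') := hlt.le.trans ((min_le_right _ _).trans (min_le_right _ _))
  obtain ⟨D, hD⟩ : ∃ D, D = B.dat lam hl := ⟨_, rfl⟩
  have hDl : D.lam = lam := by rw [hD]; rfl
  have hDν : D.ν = B.ν := by rw [hD]; rfl
  have hDg : gam D.α = g := by rw [hD, hg]; rfl
  -- bound by `2`
  have hb : ∀ m : ℕ, ph D h m ≤ 2 := by
    intro m
    unfold ph
    rw [hDg]
    have h1 := int_exp D h m g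
    have h2 : ∫ ω, (phi (D.w h ω) 0 m) ^ g ∂D.P ≤
        ∫ ω, (1 + Real.exp (g * S (D.w h ω) 0 m)) ∂D.P :=
      integral_mono (int_phi D h m g hg0) ((integrable_const (1 : ℝ)).add h1.1)
        fun ω => phi_pow_le _ _ _ _ hg0
    have h3 : ∫ ω, (1 + Real.exp (g * S (D.w h ω) 0 m)) ∂D.P =
        1 + ((∫ x, Real.exp ((-2 * D.lam * g) * x) ∂D.ν) * Real.exp (-2 * D.lam * g * h)) ^ m := by
      rw [integral_add (integrable_const (1 : ℝ)) h1.1, h1.2]
      simp
    have h4 : (∫ x, Real.exp ((-2 * D.lam * g) * x) ∂D.ν) * Real.exp (-2 * D.lam * g * h) ≤ 1 := by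
      have h5 := hmg (-2 * lam * g) (by
        rw [abs_mul, abs_mul, abs_of_pos hl, abs_of_pos hg0]
        norm_num
        nlinarith)
      have h6 : Real.exp ((1 / 2 + δ / 2) * (-2 * lam * g) ^ 2) * Real.exp (-2 * lam * g * h) ≤
          1 := by
        rw [← Real.exp_add, Real.exp_le_one_iff]
        have h7 : 2 * lam * g * ((g + δ) * lam) ≤ 2 * lam * g * h :=
          mul_le_mul_of_nonneg_left (by rw [hg]; exact hh) (by positivity)
        have h8 : 0 ≤ 2 * lam ^ 2 * g * δ * (1 - g) := by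
          have : 0 ≤ 1 - g := by linarith
          positivity
        nlinarith
      have h9 : ∫ x, Real.exp ((-2 * D.lam * g) * x) ∂D.ν =
          ∫ x, Real.exp ((-2 * lam * g) * x) ∂B.ν := by
        rw [hD]; rfl
      rw [h9, hDl]
      exact (mul_le_mul_of_nonneg_right h5 (Real.exp_pos _).le).trans h6
    have h5 : 0 ≤ (∫ x, Real.exp ((-2 * D.lam * g) * x) ∂D.ν) * Real.exp (-2 * D.lam * g * h) :=
      mul_nonneg (integral_nonneg fun x => (Real.exp_pos _).le) (Real.exp_pos _).le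
    have h6 := pow_le_one₀ (n := m) h5 h4
    linarith
  have hb0 : ∀ m : ℕ, 0 ≤ ph D h m := fun m => integral_nonneg fun ω =>
    Real.rpow_nonneg (phi_pos _ _ _).le _
  -- comparison
  have hc : ∀ m : ℕ, Real.exp (-(2 * δ' * lam ^ 2 * m)) * ph D h m ≤ ph D (h + δ' * lam) m := by
    intro m
    unfold ph
    rw [hDg, ← integral_const_mul]
    refine integral_mono ((int_phi D h m g hg0).const_mul _)
      (int_phi D (h + δ' * lam) m g hg0) fun ω => ?_
    have e1 : S (D.w (h + δ' * lam) ω) 0 m = S (D.w h ω) 0 m - 2 * δ' * lam ^ 2 * m := by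
      have := S_eq D (h + δ' * lam) m ω 1
      have e2 := S_eq D h m ω 1
      rw [one_mul] at this e2
      rw [this, e2, hDl]
      ring
    obtain ⟨v, hv⟩ : ∃ v, v = 2 * δ' * lam ^ 2 * m := ⟨_, rfl⟩
    have hv0 : 0 ≤ v := by rw [hv]; positivity
    have e3 : Real.exp (-v) * phi (D.w h ω) 0 m ≤ phi (D.w (h + δ' * lam) ω) 0 m := by
      unfold phi
      rw [e1, ← hv, sub_eq_add_neg, Real.exp_add]
      have h1 : Real.exp (-v) ≤ 1 := Real.exp_le_one_iff.2 (by linarith)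
      have h2 := Real.exp_pos (S (D.w h ω) 0 m)
      nlinarith
    have e4 : (Real.exp (-v)) ^ g * (phi (D.w h ω) 0 m) ^ g ≤
        (phi (D.w (h + δ' * lam) ω) 0 m) ^ g := by
      rw [← Real.mul_rpow (Real.exp_pos _).le (phi_pos _ _ _).le]
      exact Real.rpow_le_rpow (mul_nonneg (Real.exp_pos _).le (phi_pos _ _ _).le) e3 hg0.le
    have e5 : Real.exp (-v) ≤ (Real.exp (-v)) ^ g := by
      rw [← Real.exp_mul, Real.exp_le_exp]
      nlinarith
    have e6 : 0 ≤ (phi (D.w h ω) 0 m) ^ g := Real.rpow_nonneg (phi_pos _ _ _).le _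
    show Real.exp (-(2 * δ' * lam ^ 2 * m)) * (phi (D.w h ω) 0 m) ^ g ≤ _
    rw [← hv]
    exact (mul_le_mul_of_nonneg_right e5 e6).trans e4
  -- the sum
  obtain ⟨T, hT⟩ : ∃ T, T = 1 / (2 * δ' * lam ^ 2) := ⟨_, rfl⟩
  have hT0 : 0 < T := by rw [hT]; positivity
  have hT1 : 1 ≤ T := by
    rw [hT, le_div_iff₀ (by positivity), one_mul]
    have h1 : 2 * δ' * lam ≤ 1 := by
      rw [le_div_iff₀ (by positivity)] at hl3
      linarith
    nlinarith
  have hsum := hC T hT1 R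
  have hterm : ∀ m ∈ Finset.Icc 1 R, B.K m * ph D h m - B.K m * ph D (h + δ' * lam) m ≤
      2 * (B.K m * min ((m : ℝ) / T) 1) := by
    intro m hm
    have hK0 : 0 ≤ B.K m := ENNReal.toReal_nonneg
    have e1 : (m : ℝ) / T = 2 * δ' * lam ^ 2 * m := by
      rw [hT]; field_simp
    obtain ⟨v, hv⟩ : ∃ v, v = 2 * δ' * lam ^ 2 * m := ⟨_, rfl⟩
    have hv0 : 0 ≤ v := by rw [hv]; positivity
    have h1 := hc m
    rw [← hv] at h1
    rw [e1, ← hv]
    have h2 : 1 - Real.exp (-v) ≤ min v 1 := by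
      refine le_min ?_ ?_
      · have := Real.add_one_le_exp (-v)
        linarith
      · have := Real.exp_pos (-v)
        linarith
    have h3 : ph D h m - ph D (h + δ' * lam) m ≤ 2 * min v 1 := by
      have h4 : 0 ≤ 1 - Real.exp (-v) := by
        have : Real.exp (-v) ≤ 1 := Real.exp_le_one_iff.2 (by linarith)
        linarith
      calc ph D h m - ph D (h + δ' * lam) m ≤ (1 - Real.exp (-v)) * ph D h m := by linarith
        _ ≤ (1 - Real.exp (-v)) * 2 := mul_le_mul_of_nonneg_left (hb m) h4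
        _ ≤ 2 * min v 1 := by linarith
    calc B.K m * ph D h m - B.K m * ph D (h + δ' * lam) m =
          B.K m * (ph D h m - ph D (h + δ' * lam) m) := by ring
      _ ≤ B.K m * (2 * min v 1) := mul_le_mul_of_nonneg_left h3 hK0
      _ = 2 * (B.K m * min v 1) := by ring
  have htot : ∑ m ∈ Finset.Icc 1 R, B.K m * ph D h m -
      ∑ m ∈ Finset.Icc 1 R, B.K m * ph D (h + δ' * lam) m ≤ 2 * (C * T ^ (-B.α)) := by
    rw [← Finset.sum_sub_distrib]
    calc ∑ m ∈ Finset.Icc 1 R, (B.K m * ph D h m - B.K m * ph D (h + δ' * lam) m) ≤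
          ∑ m ∈ Finset.Icc 1 R, 2 * (B.K m * min ((m : ℝ) / T) 1) := Finset.sum_le_sum hterm
      _ = 2 * ∑ m ∈ Finset.Icc 1 R, B.K m * min ((m : ℝ) / T) 1 := by rw [Finset.mul_sum]
      _ ≤ 2 * (C * T ^ (-B.α)) := by linarith
  have hTp : T ^ (-B.α) = (2 * δ') ^ B.α * lam ^ (2 * B.α) := by
    rw [hT, one_div, Real.inv_rpow (by positivity), Real.rpow_neg (by positivity), inv_inv,
      Real.mul_rpow (by positivity) (by positivity), ← Real.rpow_natCast, ← Real.rpow_mul hl.le]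
    norm_num
  rw [hTp] at htot
  have hfin : 2 * (C * ((2 * δ') ^ B.α * lam ^ (2 * B.α))) ≤ η * lam ^ (2 * B.α) := by
    have h1 : 0 ≤ lam ^ (2 * B.α) := by positivity
    calc 2 * (C * ((2 * δ') ^ B.α * lam ^ (2 * B.α))) =
          (2 * (C * (2 * δ') ^ B.α)) * lam ^ (2 * B.α) := by ring
      _ ≤ η * lam ^ (2 * B.α) := mul_le_mul_of_nonneg_right hδ2 h1
  rw [← hD]
  linarith

end Pool.Agent.J6H58.Cop
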